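import Pool.Agent.H500.ME.Stm

/-!
Project ME (helper500), part C4 (helper30): subrepresentations of representations which are diagonal
on `U`.  Choose `m` linearly independent rows of `T`; they are weight vectors of the dual.
-/

set_option autoImplicit false

namespace Pool.Agent.H30.ME.SUB

theorem key {m : ℕ} {I : Type} [Fintype I] {C : Type} [Field C] (T : Matrix I (Fin m) C)
    (hT : ∀ x : Fin m → C, T.mulVec x = 0 → x = 0) :
    ∃ i : Fin m → I, IsUnit (T.submatrix i id) := by
  classical
  have hinj : Function.Injective T.mulVecLin := by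
    rw [← LinearMap.ker_eq_bot, LinearMap.ker_eq_bot']
    intro x hx
    exact hT x hx
  have hrank : Module.finrank C (Submodule.span C (Set.range T.row)) = m := by
    rw [← Matrix.rank_eq_finrank_span_row, Matrix.rank, LinearMap.finrank_range_of_inj hinj]
    simp
  obtain ⟨f, hf1, -, hf3⟩ := Submodule.exists_fun_fin_finrank_span_eq C (Set.range T.row)
  choose j hj using hf1
  refine ⟨fun k => j (Fin.cast hrank.symm k), ?_⟩
  rw [← Matrix.linearIndependent_rows_iff_isUnit]
  have h1 : (T.submatrix (fun k => j (Fin.cast hrank.symm k)) id).row =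
      f ∘ (Fin.cast hrank.symm) := by
    funext k l
    have := congrFun (hj (Fin.cast hrank.symm k)) l
    exact this
  rw [h1]
  exact hf3.comp _ (Fin.cast_injective _)

theorem aux (G : Type) [Group G] (U : Subgroup G) (m : ℕ) (I : Type) [Fintype I]
    [DecidableEq I] (C : Type) [Field C] (R : G →* Matrix I I C) (σ : G →* GL (Fin m) C)
    (T : Matrix I (Fin m) C) (hU : ∀ u ∈ U, (R u).IsDiag)
    (hRT : ∀ g, R g * T = T * (σ g : Matrix (Fin m) (Fin m) C))
    (hT : ∀ x : Fin m → C, T.mulVec x = 0 → x = 0) :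
    ∃ (Q : GL (Fin m) C) (i : Fin m → I), ∀ u ∈ U,
      ((Q⁻¹ * σ u * Q : GL (Fin m) C) : Matrix (Fin m) (Fin m) C) =
        Matrix.diagonal fun k => R u (i k) (i k) := by
  obtain ⟨i, hi⟩ := key T hT
  obtain ⟨P, hP⟩ := hi
  refine ⟨P⁻¹, i, fun u hu => ?_⟩
  have hD : Matrix.diagonal (fun k => R u (i k) (i k)) * (P : Matrix (Fin m) (Fin m) C) =
      (P : Matrix (Fin m) (Fin m) C) * (σ u : Matrix (Fin m) (Fin m) C) := by
    rw [hP]
    ext k l
    have h1 := congrFun (congrFun (hRT u) (i k)) l
    rw [← Matrix.IsDiag.diagonal_diag (hU u hu), Matrix.diagonal_mul] at h1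
    rw [Matrix.diagonal_mul]
    simpa [Matrix.mul_apply] using h1
  rw [inv_inv, Units.val_mul, Units.val_mul, ← hD, Matrix.mul_assoc, ← Units.val_mul,
    mul_inv_cancel, Units.val_one, Matrix.mul_one]

/-- PART C4 -/
theorem main : Pool.Agent.H500.ME.S_SUB :=
  fun G _ U m I _ _ C _ R σ T hU hRT hT => aux G U m I C R σ T hU hRT hT

end Pool.Agent.H30.ME.SUB
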